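import Pool.Agent.Helper9.CC.Stm

/-!
# Project CC: PERM (the group permutes the primitive generators of a simplicial cone)
-/

set_option autoImplicit false

namespace Pool.Agent.Helper90.CC

open Pool.Agent.Helper9.CC

section

variable {l : ℕ}

theorem cone_iff (v : Fin (l + 1) → NS l) (x : NS l) :
    x ∈ cone (Set.range v) ↔ ∃ c : Fin (l + 1) → ℝ, (∀ i, 0 ≤ c i) ∧ x = ∑ i, c i • v i := by
  classical
  constructor
  · rintro ⟨n, c, w, hc, hw, rfl⟩
    choose f hf using hw
    refine ⟨fun j => ∑ i ∈ Finset.univ.filter (fun i => f i = j), c i,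
      fun j => Finset.sum_nonneg fun i _ => hc i, ?_⟩
    rw [← Finset.sum_fiberwise Finset.univ f]
    refine Finset.sum_congr rfl fun j _ => ?_
    rw [Finset.sum_smul]
    refine Finset.sum_congr rfl fun i hi => ?_
    rw [← hf i, (Finset.mem_filter.1 hi).2]
  · rintro ⟨c, hc, rfl⟩
    exact ⟨l + 1, c, v, hc, fun i => Set.mem_range_self i, rfl⟩

end

/-- **PERM.** -/
theorem perm : S_PERM := by
  classical
  intro l v hv hL hprim g hg hcone
  have hin : ∀ i, v i ∈ cone (Set.range v) := fun i =>
    (cone_iff v _).2 ⟨Pi.single i 1, fun j => by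
      rcases eq_or_ne j i with rfl | h
      · rw [Pi.single_eq_same]; exact zero_le_one
      · rw [Pi.single_eq_of_ne h], by
      rw [Finset.sum_eq_single i]
      · rw [Pi.single_eq_same, one_smul]
      · intro j _ hj
        rw [Pi.single_eq_of_ne hj, zero_smul]
      · intro h
        exact absurd (Finset.mem_univ i) h⟩
  have hA : ∀ i, ∃ c : Fin (l + 1) → ℝ, (∀ j, 0 ≤ c j) ∧ g (v i) = ∑ j, c j • v j := fun i =>
    (cone_iff v _).1 ((hcone _).1 (hin i))
  have hB : ∀ j, ∃ c : Fin (l + 1) → ℝ, (∀ k, 0 ≤ c k) ∧ g.symm (v j) = ∑ k, c k • v k := fun j =>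
    (cone_iff v _).1 ((hcone _).2 (by rw [LinearEquiv.apply_symm_apply]; exact hin j))
  choose A hA0 hA using hA
  choose B hB0 hB using hB
  have hv0 : ∀ i, v i ≠ 0 := fun i => hv.ne_zero i
  have key : ∀ i, ∃ j, g (v i) = v j := by
    intro i
    have h1 : ∃ j, A i j ≠ 0 := by
      by_contra h
      push Not at h
      have h2 : g (v i) = 0 := by
        rw [hA i]
        exact Finset.sum_eq_zero fun j _ => by rw [h j, zero_smul]
      exact hv0 i ((LinearEquiv.map_eq_zero_iff g).1 h2)
    obtain ⟨j, hj⟩ := h1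
    have h2 : v i = ∑ k, (∑ j, A i j * B j k) • v k := by
      calc v i = g.symm (g (v i)) := (LinearEquiv.symm_apply_apply g _).symm
        _ = ∑ j, A i j • ∑ k, B j k • v k := by
            rw [hA i, map_sum]
            exact Finset.sum_congr rfl fun j _ => by rw [map_smul, hB j]
        _ = ∑ k, (∑ j, A i j * B j k) • v k := by
            simp only [Finset.smul_sum, Finset.sum_smul, smul_smul]
            exact Finset.sum_comm
    have h3 : ∑ k, ((∑ j, A i j * B j k) - (Pi.single i 1 : Fin (l + 1) → ℝ) k) • v k = 0 := by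
      simp only [sub_smul]
      rw [Finset.sum_sub_distrib, ← h2, Finset.sum_eq_single i]
      · rw [Pi.single_eq_same, one_smul, sub_self]
      · intro j _ hj
        rw [Pi.single_eq_of_ne hj, zero_smul]
      · intro h
        exact absurd (Finset.mem_univ i) h
    have h4 := Fintype.linearIndependent_iff.1 hv _ h3
    have h5 : ∀ k, k ≠ i → B j k = 0 := by
      intro k hk
      have h6 := h4 k
      rw [Pi.single_eq_of_ne hk, sub_zero] at h6
      have h7 := (Finset.sum_eq_zero_iff_of_nonneg fun j _ =>
        mul_nonneg (hA0 i j) (hB0 j k)).1 h6 j (Finset.mem_univ j)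
      exact (mul_eq_zero.1 h7).resolve_left hj
    have h6 : g.symm (v j) = B j i • v i := by
      rw [hB j, Finset.sum_eq_single i]
      · intro k _ hk
        rw [h5 k hk, zero_smul]
      · intro h
        exact absurd (Finset.mem_univ i) h
    have h7 : v j = g (B j i • v i) := by
      rw [← h6, LinearEquiv.apply_symm_apply]
    have hc0 : B j i ≠ 0 := by
      intro h
      rw [h, zero_smul, map_zero] at h7
      exact hv0 j h7
    have hcp : 0 < B j i := lt_of_le_of_ne (hB0 j i) (Ne.symm hc0)
    have h8 : 1 ≤ B j i := by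
      refine hprim i _ hcp ((hg _).2 ?_)
      rw [← h7]
      exact hL j
    have h9 : g (v i) = (B j i)⁻¹ • v j := by
      rw [h7, map_smul, smul_smul, inv_mul_cancel₀ hc0, one_smul]
    have h10 : 1 ≤ (B j i)⁻¹ := by
      refine hprim j _ (inv_pos.2 hcp) ?_
      rw [← h9]
      exact (hg _).1 (hL i)
    have h11 : B j i = 1 := by
      have h12 : (B j i)⁻¹ ≤ 1 := inv_le_one_of_one_le₀ h8
      have h13 : (B j i)⁻¹ = 1 := le_antisymm h12 h10
      exact inv_eq_one.1 h13
    refine ⟨j, ?_⟩
    rw [h9, h11, inv_one, one_smul]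
  choose σ hσ using key
  have hinj : Function.Injective σ := by
    intro i j hij
    have h1 : g (v i) = g (v j) := by rw [hσ, hσ, hij]
    exact hv.injective (g.injective h1)
  exact ⟨Equiv.ofBijective σ (Finite.injective_iff_bijective.1 hinj), fun i => hσ i⟩

end Pool.Agent.Helper90.CC
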